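import Mathlib

/-!
Definitions for the proof of S05651 (a measure singular with respect to the equilibrium measure of
its support whose Widom factors stay bounded below).

* `R l = 2^(l+5)`, `b l = R l ^ 2 - R (l+1)`.
* `Om = ℕ → Bool` is the space of digits, `sh` the shift, `cons` adds a first digit.
* `X l w = ± √(b l ± √(b (l+1) ± √ ...))` the nested radical with digits `w`.
* `P β` the product measure with marginal `β` on the digits.
-/

set_option autoImplicit false
open MeasureTheory Filter Topology

namespace Pool.Agent.H72.WF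

/-- digit sequences -/
abbrev Om := ℕ → Bool

/-- sign of a digit -/
def sg (a : Bool) : ℝ := if a then 1 else -1

/-- the shift -/
def sh (w : Om) : Om := fun n => w (n + 1)

/-- add a first digit -/
def cons (a : Bool) (w : Om) : Om := fun n => Nat.casesOn n a (fun m => w m)

/-- the radii -/
noncomputable def R (l : ℕ) : ℝ := 2 ^ (l + 5)

/-- the constants of the quadratic maps -/
noncomputable def b (l : ℕ) : ℝ := R l ^ 2 - R (l + 1)

/-- finite nested radicals -/
noncomputable def xN : ℕ → ℕ → Om → ℝ
  | 0, _, _ => 0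
  | N + 1, l, w => sg (w 0) * Real.sqrt (b l + xN N (l + 1) (sh w))

/-- infinite nested radicals -/
noncomputable def X (l : ℕ) (w : Om) : ℝ := limUnder atTop (fun N => xN N l w)

/-- product measure on digit sequences -/
noncomputable def P (β : Measure Bool) [IsProbabilityMeasure β] : Measure Om :=
  Measure.infinitePi (fun _ : ℕ => β)

instance (β : Measure Bool) [IsProbabilityMeasure β] : IsProbabilityMeasure (P β) := by
  unfold P; infer_instance

theorem R_pos (l : ℕ) : 0 < R l := by unfold R; positivity

theorem R_ge (l : ℕ) : 32 ≤ R l := by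
  unfold R
  have : (2:ℝ) ^ 5 ≤ 2 ^ (l + 5) := pow_le_pow_right₀ (by norm_num) (by omega)
  norm_num at this ⊢
  linarith

theorem R_succ (l : ℕ) : R (l + 1) = 2 * R l := by
  unfold R; rw [show l + 1 + 5 = (l + 5) + 1 by ring, pow_succ]; ring

theorem b_eq (l : ℕ) : b l = R l ^ 2 - 2 * R l := by unfold b; rw [R_succ]

theorem sg_mul_self (a : Bool) : sg a * sg a = 1 := by cases a <;> simp [sg]

theorem abs_sg (a : Bool) : |sg a| = 1 := by cases a <;> simp [sg]

@[simp] theorem sh_cons (a : Bool) (w : Om) : sh (cons a w) = w := by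
  funext n; rfl

@[simp] theorem cons_zero (a : Bool) (w : Om) : cons a w 0 = a := rfl

theorem cons_sh (w : Om) : cons (w 0) (sh w) = w := by
  funext n; cases n <;> rfl

theorem measurable_sh : Measurable sh := by
  unfold sh; exact measurable_pi_lambda _ (fun n => measurable_pi_apply _)

theorem continuous_sh : Continuous sh := by
  unfold sh; exact continuous_pi (fun n => continuous_apply _)

theorem abs_xN_le (N : ℕ) : ∀ (l : ℕ) (w : Om), |xN N l w| ≤ R l := by
  induction N with
  | zero => intro l w; simp [xN, (R_pos l).le]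
  | succ N ih =>
    intro l w
    simp only [xN, abs_mul, abs_sg, one_mul]
    rw [abs_of_nonneg (Real.sqrt_nonneg _)]
    have h := ih (l + 1) (sh w)
    have h1 := (abs_le.mp h).2
    rw [Real.sqrt_le_left (R_pos l).le]
    have : b l = R l ^ 2 - R (l + 1) := rfl
    linarith

/-- the argument of the square root is bounded below -/
theorem arg_lower (l : ℕ) {y : ℝ} (hy : |y| ≤ R (l + 1)) : (R l / 2) ^ 2 ≤ b l + y := by
  have h1 := (abs_le.mp hy).1
  have h2 := R_succ l
  have h3 := R_ge l
  have h4 := b_eq l
  nlinarith [R_pos l]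

theorem sqrt_lower (l : ℕ) {y : ℝ} (hy : |y| ≤ R (l + 1)) : R l / 2 ≤ Real.sqrt (b l + y) := by
  apply Real.le_sqrt_of_sq_le
  exact arg_lower l hy

theorem sqrt_sub (l : ℕ) {y z : ℝ} (hy : |y| ≤ R (l + 1)) (hz : |z| ≤ R (l + 1)) :
    |Real.sqrt (b l + y) - Real.sqrt (b l + z)| ≤ |y - z| / R l := by
  have h1 := sqrt_lower l hy
  have h2 := sqrt_lower l hz
  have h3 := R_pos l
  have hy0 : 0 ≤ b l + y := le_trans (sq_nonneg _) (arg_lower l hy)
  have hz0 : 0 ≤ b l + z := le_trans (sq_nonneg _) (arg_lower l hz)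
  have key : (Real.sqrt (b l + y) - Real.sqrt (b l + z)) *
      (Real.sqrt (b l + y) + Real.sqrt (b l + z)) = y - z := by
    have e1 := Real.mul_self_sqrt hy0
    have e2 := Real.mul_self_sqrt hz0
    nlinarith
  rw [le_div_iff₀ h3, ← key, abs_mul]
  apply mul_le_mul_of_nonneg_left _ (abs_nonneg _)
  rw [abs_of_nonneg (by positivity)]
  linarith

theorem abs_xN_succ_sub (N : ℕ) : ∀ (l : ℕ) (w : Om),
    |xN (N + 1) l w - xN N l w| ≤ R l * (1 / 2) ^ N := by
  induction N with
  | zero =>
    intro l w
    have h := abs_xN_le 1 l w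
    have e : xN 0 l w = 0 := rfl
    rw [e, sub_zero]
    simpa using h
  | succ N ih =>
    intro l w
    have h1 : xN (N + 1 + 1) l w = sg (w 0) * Real.sqrt (b l + xN (N + 1) (l + 1) (sh w)) := rfl
    have h2 : xN (N + 1) l w = sg (w 0) * Real.sqrt (b l + xN N (l + 1) (sh w)) := rfl
    rw [h1, h2, ← mul_sub, abs_mul, abs_sg, one_mul]
    have h3 := sqrt_sub l (abs_xN_le (N + 1) (l + 1) (sh w)) (abs_xN_le N (l + 1) (sh w))
    have h4 := ih (l + 1) (sh w)
    have h5 := R_pos l
    have h6 := R_ge l
    rw [R_succ] at h4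
    calc _ ≤ |xN (N + 1) (l + 1) (sh w) - xN N (l + 1) (sh w)| / R l := h3
      _ ≤ (2 * R l * (1 / 2) ^ N) / R l := by gcongr
      _ = 2 * (1 / 2) ^ N := by field_simp
      _ ≤ R l * (1 / 2) ^ (N + 1) := by
        rw [pow_succ]
        have : (0:ℝ) < (1 / 2) ^ N := by positivity
        nlinarith

theorem tendsto_xN (l : ℕ) (w : Om) : Tendsto (fun N => xN N l w) atTop (𝓝 (X l w)) := by
  have hc : CauchySeq (fun N => xN N l w) := by
    apply cauchySeq_of_le_geometric (1 / 2) (R l) (by norm_num)
    intro n
    rw [dist_comm, Real.dist_eq]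
    exact abs_xN_succ_sub n l w
  exact (cauchySeq_tendsto_of_complete hc).elim (fun a ha => by
    unfold X; rw [ha.limUnder_eq]; exact ha)

theorem abs_X_le (l : ℕ) (w : Om) : |X l w| ≤ R l :=
  le_of_tendsto (tendsto_xN l w).abs (Eventually.of_forall (fun N => abs_xN_le N l w))

theorem X_eq (l : ℕ) (w : Om) : X l w = sg (w 0) * Real.sqrt (b l + X (l + 1) (sh w)) := by
  have h1 : Tendsto (fun N => xN (N + 1) l w) atTop (𝓝 (X l w)) :=
    (tendsto_add_atTop_iff_nat 1).mpr (tendsto_xN l w)
  have h2 : Tendsto (fun N => xN (N + 1) l w) atTop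
      (𝓝 (sg (w 0) * Real.sqrt (b l + X (l + 1) (sh w)))) := by
    have : Tendsto (fun N => sg (w 0) * Real.sqrt (b l + xN N (l + 1) (sh w))) atTop
      (𝓝 (sg (w 0) * Real.sqrt (b l + X (l + 1) (sh w)))) := by
      apply Tendsto.const_mul
      apply (Real.continuous_sqrt.tendsto _).comp
      exact (tendsto_xN (l + 1) (sh w)).const_add _
    exact this
  exact tendsto_nhds_unique h1 h2

theorem X_sq (l : ℕ) (w : Om) : X l w ^ 2 = b l + X (l + 1) (sh w) := by
  rw [X_eq l w, mul_pow, Real.sq_sqrt (le_trans (sq_nonneg _) (arg_lower l (abs_X_le _ _)))]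
  rw [sq, sg_mul_self, one_mul]

theorem X_cons (l : ℕ) (a : Bool) (w : Om) :
    X l (cons a w) = sg a * Real.sqrt (b l + X (l + 1) w) := by
  rw [X_eq]; simp

theorem X_lower (l : ℕ) (w : Om) : R l / 2 ≤ |X l w| := by
  rw [X_eq, abs_mul, abs_sg, one_mul, abs_of_nonneg (Real.sqrt_nonneg _)]
  exact sqrt_lower l (abs_X_le _ _)

theorem continuous_xN (N : ℕ) : ∀ l : ℕ, Continuous (xN N l) := by
  induction N with
  | zero => intro l; exact continuous_const
  | succ N ih =>
    intro l
    have : xN (N + 1) l = fun w => sg (w 0) * Real.sqrt (b l + xN N (l + 1) (sh w)) := rfl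
    rw [this]
    have hs : Continuous (fun w : Om => sg (w 0)) := by
      have : Continuous sg := continuous_of_discreteTopology
      exact this.comp (continuous_apply 0)
    exact hs.mul (Real.continuous_sqrt.comp (continuous_const.add ((ih (l + 1)).comp continuous_sh)))

theorem dist_xN_X (N l : ℕ) (w : Om) : dist (xN N l w) (X l w) ≤ R l * (1 / 2) ^ N / (1 - 1 / 2) := by
  apply dist_le_of_le_geometric_of_tendsto (1 / 2) (R l) (by norm_num) _ (tendsto_xN l w)
  intro n
  rw [dist_comm, Real.dist_eq]
  exact abs_xN_succ_sub n l w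

theorem continuous_X (l : ℕ) : Continuous (X l) := by
  have hu : TendstoUniformly (fun N => xN N l) (X l) atTop := by
    rw [Metric.tendstoUniformly_iff]
    intro ε hε
    have h0 : Tendsto (fun N : ℕ => R l * (1 / 2) ^ N / (1 - 1 / 2)) atTop (𝓝 0) := by
      have := (tendsto_pow_atTop_nhds_zero_of_lt_one (r := (1/2 : ℝ)) (by norm_num) (by norm_num))
      have h2 := (this.const_mul (R l)).div_const (1 - 1 / 2)
      simpa using h2
    filter_upwards [h0.eventually (gt_mem_nhds hε)] with N hN w
    rw [dist_comm]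
    exact lt_of_le_of_lt (dist_xN_X N l w) hN
  exact hu.continuous (Eventually.of_forall (fun N => continuous_xN N l)).frequently

theorem measurable_X (l : ℕ) : Measurable (X l) := (continuous_X l).measurable

theorem X_pos_iff (l : ℕ) (w : Om) : 0 < X l w ↔ w 0 = true := by
  have h := sqrt_lower l (abs_X_le (l + 1) (sh w))
  have hR := R_pos l
  rw [X_eq]
  cases hw : w 0
  · simp [sg]
  · simp only [sg, if_true, one_mul, iff_true]; linarith

theorem X_injective : ∀ l : ℕ, Function.Injective (X l) := by
  have step : ∀ n l (w v : Om), X l w = X l v → w n = v n := by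
    intro n
    induction n with
    | zero =>
      intro l w v h
      have h1 := X_pos_iff l w
      have h2 := X_pos_iff l v
      rw [h] at h1
      have : (w 0 = true) ↔ (v 0 = true) := h1.symm.trans h2
      cases hw : w 0 <;> cases hv : v 0 <;> simp_all
    | succ n ih =>
      intro l w v h
      have h1 : X (l + 1) (sh w) = X (l + 1) (sh v) := by
        have e1 := X_sq l w
        have e2 := X_sq l v
        rw [h] at e1
        linarith
      exact ih (l + 1) (sh w) (sh v) h1
  intro l w v h
  funext n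
  exact step n l w v h

end Pool.Agent.H72.WF
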