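import Pool.Agent.H72.WF.Lower

set_option autoImplicit false
open MeasureTheory Filter Topology

namespace Pool.Agent.H72.WF

variable (β : Measure Bool) [IsProbabilityMeasure β]

/-- pairs of digit sequences -/
noncomputable def PP : Measure (Om × Om) := (P β).prod (P β)

instance : IsProbabilityMeasure (PP β) := by unfold PP; infer_instance

/-- add a first digit to both sequences -/
def cc (a a' : Bool) (z : Om × Om) : Om × Om := (cons a z.1, cons a' z.2)

theorem measurable_cons' (a : Bool) : Measurable (cons a) :=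
  measurable_cons.comp (measurable_const.prodMk measurable_id)

theorem measurable_cc (a a' : Bool) : Measurable (cc a a') :=
  ((measurable_cons' a).comp measurable_fst).prodMk ((measurable_cons' a').comp measurable_snd)

theorem P_split (hf : ∀ a, β {a} = 2⁻¹) :
    P β = (2⁻¹ : ENNReal) • ((P β).map (cons true) + (P β).map (cons false)) := by
  have hβ : β = (2⁻¹ : ENNReal) • (Measure.dirac true + Measure.dirac false) := by
    apply Measure.ext_of_singleton
    intro a
    rw [hf a]
    cases a <;> simp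
  have h := map_cons β
  have h2 : β.prod (P β) = (2⁻¹ : ENNReal) •
      ((P β).map (Prod.mk true) + (P β).map (Prod.mk false)) := by
    have key : ∀ γ : Measure Bool, γ = (2⁻¹ : ENNReal) • (Measure.dirac true + Measure.dirac false) →
        γ.prod (P β) = (2⁻¹ : ENNReal) •
          ((P β).map (Prod.mk true) + (P β).map (Prod.mk false)) := by
      intro γ hγ
      rw [hγ, Measure.prod_smul_left, Measure.add_prod, Measure.dirac_prod, Measure.dirac_prod]
    exact key β hβ
  rw [h2] at h
  conv_lhs => rw [← h]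
  rw [Measure.map_smul, Measure.map_add _ _ consEquiv.measurable,
    Measure.map_map consEquiv.measurable measurable_prodMk_left,
    Measure.map_map consEquiv.measurable measurable_prodMk_left]
  rfl

theorem PP_split (hf : ∀ a, β {a} = 2⁻¹) :
    PP β = (4⁻¹ : ENNReal) • ((PP β).map (cc true true) + (PP β).map (cc true false) +
      ((PP β).map (cc false true) + (PP β).map (cc false false))) := by
  have h : ∀ a a' : Bool, ((P β).map (cons a)).prod ((P β).map (cons a')) = (PP β).map (cc a a') := by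
    intro a a'
    unfold PP
    rw [Measure.map_prod_map _ _ (measurable_cons' a) (measurable_cons' a')]
    rfl
  have : ∀ a, IsProbabilityMeasure ((P β).map (cons a)) :=
    fun a => Measure.isProbabilityMeasure_map (measurable_cons' a).aemeasurable
  conv_lhs => unfold PP; rw [P_split β hf]
  rw [Measure.prod_smul_left, Measure.prod_smul_right, Measure.add_prod, Measure.prod_add,
    Measure.prod_add, h, h, h, h, smul_smul]
  congr 1
  rw [← ENNReal.mul_inv (by simp) (by simp)]
  norm_num

theorem integrable_cc (hf : ∀ a, β {a} = 2⁻¹) (f : Om × Om → ℝ) (hi : Integrable f (PP β))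
    (a a' : Bool) : Integrable (fun z => f (cc a a' z)) (PP β) := by
  have h := PP_split β hf
  have hi2 := hi
  rw [h] at hi2
  have h4 : (4⁻¹ : ENNReal) ≠ 0 := by simp
  have h4' : (4⁻¹ : ENNReal) ≠ ⊤ := by simp
  rw [integrable_smul_measure h4 h4'] at hi2
  have h1 := hi2.left_of_add_measure
  have h2 := hi2.right_of_add_measure
  have key : ∀ a a', Integrable f ((PP β).map (cc a a')) := by
    intro a a'
    cases a <;> cases a'
    · exact h2.right_of_add_measure
    · exact h2.left_of_add_measure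
    · exact h1.right_of_add_measure
    · exact h1.left_of_add_measure
  exact (key a a').comp_measurable (measurable_cc a a')

theorem integral_PP (hf : ∀ a, β {a} = 2⁻¹) (f : Om × Om → ℝ) (hi : Integrable f (PP β)) :
    ∫ z, f z ∂(PP β) = (1 / 4) * (((∫ z, f (cc true true z) ∂(PP β)) +
      ∫ z, f (cc true false z) ∂(PP β)) + ((∫ z, f (cc false true z) ∂(PP β)) +
      ∫ z, f (cc false false z) ∂(PP β))) := by
  have h := PP_split β hf
  have hi2 := hi
  rw [h] at hi2
  have h4 : (4⁻¹ : ENNReal) ≠ 0 := by simp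
  have h4' : (4⁻¹ : ENNReal) ≠ ⊤ := by simp
  rw [integrable_smul_measure h4 h4'] at hi2
  have h1 := hi2.left_of_add_measure
  have h2 := hi2.right_of_add_measure
  conv_lhs => rw [h]
  rw [integral_smul_measure, integral_add_measure h1 h2,
    integral_add_measure h1.left_of_add_measure h1.right_of_add_measure,
    integral_add_measure h2.left_of_add_measure h2.right_of_add_measure]
  rw [integral_map (measurable_cc _ _).aemeasurable h1.left_of_add_measure.aestronglyMeasurable,
    integral_map (measurable_cc _ _).aemeasurable h1.right_of_add_measure.aestronglyMeasurable,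
    integral_map (measurable_cc _ _).aemeasurable h2.left_of_add_measure.aestronglyMeasurable,
    integral_map (measurable_cc _ _).aemeasurable h2.right_of_add_measure.aestronglyMeasurable]
  simp only [smul_eq_mul, ENNReal.toReal_inv]
  norm_num

/-- the logarithmic kernel on level `l` -/
noncomputable def G (l : ℕ) (z : Om × Om) : ℝ := Real.log |X l z.1 - X l z.2|

theorem measurable_G (l : ℕ) : Measurable (G l) := by
  unfold G
  exact Real.measurable_log.comp
    (continuous_abs.measurable.comp (((measurable_X l).comp measurable_fst).sub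
      ((measurable_X l).comp measurable_snd)))

theorem ae_ne (hf : ∀ a, β {a} = 2⁻¹) : ∀ᵐ z ∂(PP β), z.1 ≠ z.2 := by
  have : NullSingletonClass (P β) := noAtoms_P β (by rw [hf]; simp) (by rw [hf]; simp)
  unfold PP
  rw [ae_iff]
  have hm : MeasurableSet {z : Om × Om | ¬ z.1 ≠ z.2} := by
    have : {z : Om × Om | ¬ z.1 ≠ z.2} = {z : Om × Om | z.1 = z.2} := by ext z; simp
    rw [this]
    exact measurableSet_eq_fun measurable_fst measurable_snd
  rw [Measure.measure_prod_null hm]
  refine Eventually.of_forall (fun w => ?_)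
  have : (Prod.mk w ⁻¹' {z : Om × Om | ¬ z.1 ≠ z.2}) = {w} := by
    ext v; simp [eq_comm]
  simp only [this, Pi.zero_apply]
  exact measure_singleton w

theorem ae_ne_X (hf : ∀ a, β {a} = 2⁻¹) (l : ℕ) : ∀ᵐ z ∂(PP β), X l z.1 ≠ X l z.2 := by
  filter_upwards [ae_ne β hf] with z hz
  exact fun h => hz (X_injective l h)

/-- the sum of the two roots -/
noncomputable def L (l : ℕ) (z : Om × Om) : ℝ :=
  Real.log (Real.sqrt (b l + X (l + 1) z.1) + Real.sqrt (b l + X (l + 1) z.2))

theorem sum_bounds (l : ℕ) (z : Om × Om) :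
    R l ≤ Real.sqrt (b l + X (l + 1) z.1) + Real.sqrt (b l + X (l + 1) z.2) ∧
    Real.sqrt (b l + X (l + 1) z.1) + Real.sqrt (b l + X (l + 1) z.2) ≤ 2 * R l := by
  have h1 := sqrt_lower l (abs_X_le (l + 1) z.1)
  have h2 := sqrt_lower l (abs_X_le (l + 1) z.2)
  have up : ∀ w : Om, Real.sqrt (b l + X (l + 1) w) ≤ R l := by
    intro w
    rw [Real.sqrt_le_left (R_pos l).le]
    have := (abs_le.mp (abs_X_le (l + 1) w)).2
    have : b l = R l ^ 2 - R (l + 1) := rfl
    linarith
  have h3 := up z.1
  have h4 := up z.2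
  constructor <;> linarith

theorem L_bounds (l : ℕ) (z : Om × Om) : 0 ≤ L l z ∧ L l z ≤ Real.log (2 * R l) := by
  obtain ⟨h1, h2⟩ := sum_bounds l z
  have hR := R_ge l
  constructor
  · exact Real.log_nonneg (by linarith)
  · exact Real.log_le_log (by linarith) h2

theorem G_diff (l : ℕ) (z : Om × Om) :
    G l (cc true false z) = L l z ∧ G l (cc false true z) = L l z := by
  have hR := R_ge l
  obtain ⟨h1, h2⟩ := sum_bounds l z
  unfold G cc L
  simp only [X_cons, sg]
  constructor
  · simp only [if_true, Bool.false_eq_true, if_false]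
    congr 1
    rw [one_mul, neg_one_mul, sub_neg_eq_add, abs_of_nonneg (by linarith)]
  · simp only [if_true, Bool.false_eq_true, if_false]
    congr 1
    rw [one_mul, neg_one_mul, ← neg_add', abs_neg, abs_of_nonneg (by linarith)]

theorem G_same (l : ℕ) (a : Bool) (z : Om × Om) (hz : X (l + 1) z.1 ≠ X (l + 1) z.2) :
    G l (cc a a z) = G (l + 1) z - L l z := by
  have hR := R_ge l
  obtain ⟨h1, h2⟩ := sum_bounds l z
  have hpos : 0 < Real.sqrt (b l + X (l + 1) z.1) + Real.sqrt (b l + X (l + 1) z.2) := by linarith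
  have hy0 : 0 ≤ b l + X (l + 1) z.1 := le_trans (sq_nonneg _) (arg_lower l (abs_X_le _ _))
  have hz0 : 0 ≤ b l + X (l + 1) z.2 := le_trans (sq_nonneg _) (arg_lower l (abs_X_le _ _))
  unfold G cc L
  simp only [X_cons]
  rw [← mul_sub, abs_mul, abs_sg, one_mul]
  have key : |Real.sqrt (b l + X (l + 1) z.1) - Real.sqrt (b l + X (l + 1) z.2)| =
      |X (l + 1) z.1 - X (l + 1) z.2| /
        (Real.sqrt (b l + X (l + 1) z.1) + Real.sqrt (b l + X (l + 1) z.2)) := by
    rw [eq_div_iff hpos.ne', ← abs_of_pos hpos, ← abs_mul]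
    congr 1
    have e1 := Real.mul_self_sqrt hy0
    have e2 := Real.mul_self_sqrt hz0
    nlinarith
  rw [key, Real.log_div (abs_pos.mpr (sub_ne_zero.mpr hz)).ne' hpos.ne']

/-- the truncated kernel -/
noncomputable def B (T : ℝ) (l : ℕ) (z : Om × Om) : ℝ := min |G l z| T

theorem measurable_B (T : ℝ) (l : ℕ) : Measurable (B T l) :=
  (continuous_abs.measurable.comp (measurable_G l)).min measurable_const

theorem B_nonneg (T : ℝ) (hT : 0 ≤ T) (l : ℕ) (z : Om × Om) : 0 ≤ B T l z :=
  le_min (abs_nonneg _) hT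

theorem integrable_B (T : ℝ) (hT : 0 ≤ T) (l : ℕ) : Integrable (B T l) (PP β) := by
  apply Integrable.of_bound (measurable_B T l).aestronglyMeasurable T
  refine Eventually.of_forall (fun z => ?_)
  rw [Real.norm_of_nonneg (B_nonneg T hT l z)]
  exact min_le_right _ _

theorem log_R (l : ℕ) : Real.log (2 * R l) ≤ l + 6 := by
  have h : 2 * R l = 2 ^ (l + 6) := by unfold R; rw [show l + 6 = (l + 5) + 1 by ring, pow_succ]; ring
  rw [h, Real.log_pow]
  have h2 : Real.log 2 ≤ 1 := by
    have := Real.log_two_lt_d9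
    linarith
  push_cast
  have : (0:ℝ) ≤ (l:ℝ) + 6 := by positivity
  nlinarith

theorem integral_B_step (hf : ∀ a, β {a} = 2⁻¹) (T : ℝ) (hT : 0 ≤ T) (l : ℕ) :
    ∫ z, B T l z ∂(PP β) ≤ (1 / 2) * (∫ z, B T (l + 1) z ∂(PP β)) + (l + 6) := by
  have hi := integrable_B β T hT l
  rw [integral_PP β hf _ hi]
  have hne := ae_ne_X β hf (l + 1)
  have hlog := log_R l
  have h1 : ∀ a : Bool, ∫ z, B T l (cc a a z) ∂(PP β) ≤
      (∫ z, B T (l + 1) z ∂(PP β)) + (l + 6) := by
    intro a
    have e : (∫ z, B T (l + 1) z ∂(PP β)) + ((l:ℝ) + 6) =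
        ∫ z, (B T (l + 1) z + ((l:ℝ) + 6)) ∂(PP β) := by
      rw [integral_add (integrable_B β T hT (l + 1)) (integrable_const _)]
      simp
    rw [e]
    apply integral_mono_ae (integrable_cc β hf _ hi a a)
      ((integrable_B β T hT (l + 1)).add (integrable_const _))
    filter_upwards [hne] with z hz
    obtain ⟨h3, h4⟩ := L_bounds l z
    have h5 : |G l (cc a a z)| ≤ |G (l + 1) z| + ((l:ℝ) + 6) := by
      rw [G_same l a z hz]
      have := abs_sub (G (l + 1) z) (L l z)
      rw [abs_of_nonneg h3] at this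
      linarith
    have h6 : (0:ℝ) ≤ (l:ℝ) + 6 := by positivity
    simp only [Pi.add_apply, B]
    rcases le_total |G (l + 1) z| T with h | h
    · rw [min_eq_left h]
      exact le_trans (min_le_left _ _) h5
    · rw [min_eq_right h]
      exact le_trans (min_le_right _ _) (by linarith)
  have h2 : ∀ a a' : Bool, a ≠ a' → ∫ z, B T l (cc a a' z) ∂(PP β) ≤ (l:ℝ) + 6 := by
    intro a a' haa
    have e : (l:ℝ) + 6 = ∫ z, ((l:ℝ) + 6) ∂(PP β) := by simp
    rw [e]
    apply integral_mono (integrable_cc β hf _ hi a a') (integrable_const _)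
    intro z
    obtain ⟨h3, h4⟩ := L_bounds l z
    have h5 : G l (cc a a' z) = L l z := by
      cases a <;> cases a'
      · exact absurd rfl haa
      · exact (G_diff l z).2
      · exact (G_diff l z).1
      · exact absurd rfl haa
    simp only [B, h5, abs_of_nonneg h3]
    exact le_trans (min_le_left _ _) (by linarith)
  have := h1 true
  have := h1 false
  have := h2 true false (by simp)
  have := h2 false true (by simp)
  linarith

theorem integral_B_le (hf : ∀ a, β {a} = 2⁻¹) (T : ℝ) (hT : 0 ≤ T) :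
    ∀ (m l : ℕ), ∫ z, B T l z ∂(PP β) ≤ (2 * l + 14) + T / 2 ^ m := by
  intro m
  induction m with
  | zero =>
    intro l
    have h : ∫ z, B T l z ∂(PP β) ≤ ∫ _z, T ∂(PP β) := by
      apply integral_mono (integrable_B β T hT l) (integrable_const _)
      intro z
      exact min_le_right _ _
    have h : ∫ z, B T l z ∂(PP β) ≤ T := by simpa using h
    have : (0:ℝ) ≤ 2 * l + 14 := by positivity
    simp only [pow_zero, div_one]
    linarith
  | succ m ih =>
    intro l
    have h1 := integral_B_step β hf T hT l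
    have h2 := ih (l + 1)
    push_cast at h2
    have h3 : T / 2 ^ (m + 1) = (1 / 2) * (T / 2 ^ m) := by rw [pow_succ]; field_simp
    rw [h3]
    linarith

theorem integral_B_le' (hf : ∀ a, β {a} = 2⁻¹) (T : ℝ) (hT : 0 ≤ T) (l : ℕ) :
    ∫ z, B T l z ∂(PP β) ≤ 2 * l + 14 := by
  have h0 : Tendsto (fun m : ℕ => (2 * (l:ℝ) + 14) + T / 2 ^ m) atTop (𝓝 ((2 * (l:ℝ) + 14) + 0)) := by
    apply Tendsto.const_add
    have := (tendsto_pow_atTop_nhds_zero_of_lt_one (r := (1/2 : ℝ)) (by norm_num) (by norm_num))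
    have h2 := this.const_mul T
    rw [mul_zero] at h2
    refine h2.congr (fun m => ?_)
    rw [one_div, inv_pow]; rfl
  rw [add_zero] at h0
  exact ge_of_tendsto h0 (Eventually.of_forall (fun m => integral_B_le β hf T hT m l))

theorem lintegral_G (hf : ∀ a, β {a} = 2⁻¹) (l : ℕ) :
    ∫⁻ z, ENNReal.ofReal |G l z| ∂(PP β) ≤ ENNReal.ofReal (2 * l + 14) := by
  have h1 : ∀ n : ℕ, ∫⁻ z, ENNReal.ofReal (B n l z) ∂(PP β) ≤ ENNReal.ofReal (2 * l + 14) := by
    intro n
    rw [← ofReal_integral_eq_lintegral_ofReal (integrable_B β n (Nat.cast_nonneg n) l)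
      (Eventually.of_forall (fun z => B_nonneg n (Nat.cast_nonneg n) l z))]
    exact ENNReal.ofReal_le_ofReal (integral_B_le' β hf n (Nat.cast_nonneg n) l)
  have h2 : ∀ z, ENNReal.ofReal |G l z| = ⨆ n : ℕ, ENNReal.ofReal (B n l z) := by
    intro z
    apply le_antisymm
    · obtain ⟨n, hn⟩ := exists_nat_ge |G l z|
      refine le_trans ?_ (le_iSup _ n)
      unfold B
      rw [min_eq_left hn]
    · apply iSup_le
      intro n
      exact ENNReal.ofReal_le_ofReal (min_le_left _ _)
  simp_rw [h2]
  rw [lintegral_iSup (fun n => (measurable_B n l).ennreal_ofReal)]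
  · exact iSup_le h1
  · intro m n hmn z
    apply ENNReal.ofReal_le_ofReal
    unfold B
    exact min_le_min_left _ (by exact_mod_cast hmn)

theorem integrable_G (hf : ∀ a, β {a} = 2⁻¹) (l : ℕ) : Integrable (G l) (PP β) := by
  refine ⟨(measurable_G l).aestronglyMeasurable, ?_⟩
  rw [hasFiniteIntegral_iff_norm]
  simp_rw [Real.norm_eq_abs]
  exact lt_of_le_of_lt (lintegral_G β hf l) ENNReal.ofReal_lt_top

theorem abs_integral_G (hf : ∀ a, β {a} = 2⁻¹) (l : ℕ) :
    |∫ z, G l z ∂(PP β)| ≤ 2 * l + 14 := by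
  have h1 : |∫ z, G l z ∂(PP β)| ≤ ∫ z, |G l z| ∂(PP β) := abs_integral_le_integral_abs
  have h2 : ENNReal.ofReal (∫ z, |G l z| ∂(PP β)) ≤ ENNReal.ofReal (2 * l + 14) := by
    rw [ofReal_integral_eq_lintegral_ofReal (integrable_G β hf l).abs
      (Eventually.of_forall (fun z => abs_nonneg _))]
    exact lintegral_G β hf l
  have h3 := (ENNReal.ofReal_le_ofReal_iff (by positivity)).mp h2
  linarith

theorem integral_G_step (hf : ∀ a, β {a} = 2⁻¹) (l : ℕ) :
    ∫ z, G l z ∂(PP β) = (1 / 2) * ∫ z, G (l + 1) z ∂(PP β) := by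
  have hi := integrable_G β hf l
  rw [integral_PP β hf _ hi]
  have hLi : Integrable (L l) (PP β) := by
    have := integrable_cc β hf _ hi true false
    refine this.congr (Eventually.of_forall (fun z => (G_diff l z).1))
  have h1 : ∀ a : Bool, ∫ z, G l (cc a a z) ∂(PP β) =
      (∫ z, G (l + 1) z ∂(PP β)) - ∫ z, L l z ∂(PP β) := by
    intro a
    rw [← integral_sub (integrable_G β hf (l + 1)) hLi]
    apply integral_congr_ae
    filter_upwards [ae_ne_X β hf (l + 1)] with z hz
    exact G_same l a z hz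
  have h2 : ∫ z, G l (cc true false z) ∂(PP β) = ∫ z, L l z ∂(PP β) :=
    integral_congr_ae (Eventually.of_forall (fun z => (G_diff l z).1))
  have h3 : ∫ z, G l (cc false true z) ∂(PP β) = ∫ z, L l z ∂(PP β) :=
    integral_congr_ae (Eventually.of_forall (fun z => (G_diff l z).2))
  rw [h1, h1, h2, h3]
  ring

theorem integral_G_zero (hf : ∀ a, β {a} = 2⁻¹) (l : ℕ) : ∫ z, G l z ∂(PP β) = 0 := by
  have h1 : ∀ s : ℕ, ∫ z, G l z ∂(PP β) = (1 / 2) ^ s * ∫ z, G (l + s) z ∂(PP β) := by
    intro s
    induction s with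
    | zero => simp
    | succ s ih =>
      rw [ih, integral_G_step β hf (l + s), pow_succ]
      rw [show l + (s + 1) = l + s + 1 by ring]
      ring
  have h2 : ∀ s : ℕ, |∫ z, G l z ∂(PP β)| ≤ (1 / 2) ^ s * (2 * (l + s : ℕ) + 14) := by
    intro s
    rw [h1 s, abs_mul, abs_of_nonneg (by positivity)]
    apply mul_le_mul_of_nonneg_left _ (by positivity)
    exact abs_integral_G β hf (l + s)
  have h3 : Tendsto (fun s : ℕ => ((1:ℝ) / 2) ^ s * (2 * (l + s : ℕ) + 14)) atTop (𝓝 0) := by
    have a1 := tendsto_self_mul_const_pow_of_lt_one (r := (1/2 : ℝ)) (by norm_num) (by norm_num)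
    have a2 := tendsto_pow_atTop_nhds_zero_of_lt_one (r := (1/2 : ℝ)) (by norm_num) (by norm_num)
    have a3 := (a1.const_mul 2).add (a2.const_mul (2 * (l:ℝ) + 14))
    simp only [mul_zero, add_zero] at a3
    refine a3.congr (fun s => ?_)
    push_cast
    ring
  have h4 : |∫ z, G l z ∂(PP β)| ≤ 0 := ge_of_tendsto h3 (Eventually.of_forall h2)
  exact abs_eq_zero.mp (le_antisymm h4 (abs_nonneg _))

end Pool.Agent.H72.WF
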