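import Pool.Agent.H72.WF.Meas

set_option autoImplicit false
open MeasureTheory Filter Topology

namespace Pool.Agent.H72.WF

open Polynomial in
/-- even part -/
noncomputable def ev (p : Polynomial ℂ) (c : ℝ) : Polynomial ℂ :=
  (contract 2 p).comp (Polynomial.X + C (c : ℂ))

open Polynomial in
/-- odd part -/
noncomputable def od (p : Polynomial ℂ) (c : ℝ) : Polynomial ℂ :=
  (contract 2 (divX p)).comp (Polynomial.X + C (c : ℂ))

open Polynomial in
theorem split_poly (p : Polynomial ℂ) :
    p = expand ℂ 2 (contract 2 p) + Polynomial.X * expand ℂ 2 (contract 2 (divX p)) := by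
  ext n
  rw [coeff_add, coeff_expand (by norm_num), coeff_contract (by norm_num)]
  cases n with
  | zero => simp
  | succ n =>
    rw [coeff_X_mul, coeff_expand (by norm_num), coeff_contract (by norm_num), coeff_divX]
    by_cases h : 2 ∣ n
    · have h' : ¬ (2 ∣ n + 1) := by omega
      rw [if_pos h, if_neg h', zero_add]
      congr 1
      omega
    · have h' : (2 ∣ n + 1) := by omega
      rw [if_neg h, if_pos h', add_zero]
      congr 1
      omega

open Polynomial in
theorem eval_split (p : Polynomial ℂ) (c : ℝ) (x : ℂ) :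
    p.eval x = (ev p c).eval (x ^ 2 - c) + x * (od p c).eval (x ^ 2 - c) := by
  conv_lhs => rw [split_poly p]
  simp [ev, od, expand_eval, eval_comp]

open Polynomial in
theorem ev_monic (p : Polynomial ℂ) (c : ℝ) (m : ℕ) (hp : p.Monic) (hd : p.natDegree = 2 * m) :
    (ev p c).Monic ∧ (ev p c).natDegree = m := by
  have h1 : (contract 2 p).natDegree ≤ m := by
    rw [natDegree_le_iff_coeff_eq_zero]
    intro N hN
    rw [coeff_contract (by norm_num)]
    apply coeff_eq_zero_of_natDegree_lt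
    omega
  have h2 : (contract 2 p).coeff m = 1 := by
    rw [coeff_contract (by norm_num), mul_comm, ← hd]
    exact hp
  have h3 : (contract 2 p).Monic := monic_of_natDegree_le_of_coeff_eq_one m h1 h2
  have h4 : (contract 2 p).natDegree = m :=
    le_antisymm h1 (le_natDegree_of_ne_zero (by rw [h2]; exact one_ne_zero))
  constructor
  · exact h3.comp_X_add_C (c : ℂ)
  · unfold ev
    rw [natDegree_comp, h4, natDegree_X_add_C, mul_one]

open Polynomial in
theorem od_monic (p : Polynomial ℂ) (c : ℝ) (m : ℕ) (hp : p.Monic)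
    (hd : p.natDegree = 2 * m + 1) :
    (od p c).Monic ∧ (od p c).natDegree = m := by
  have h1 : (contract 2 (divX p)).natDegree ≤ m := by
    rw [natDegree_le_iff_coeff_eq_zero]
    intro N hN
    rw [coeff_contract (by norm_num), coeff_divX]
    apply coeff_eq_zero_of_natDegree_lt
    omega
  have h2 : (contract 2 (divX p)).coeff m = 1 := by
    rw [coeff_contract (by norm_num), coeff_divX, mul_comm, ← hd]
    exact hp
  have h3 : (contract 2 (divX p)).Monic := monic_of_natDegree_le_of_coeff_eq_one m h1 h2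
  have h4 : (contract 2 (divX p)).natDegree = m :=
    le_antisymm h1 (le_natDegree_of_ne_zero (by rw [h2]; exact one_ne_zero))
  constructor
  · exact h3.comp_X_add_C (c : ℂ)
  · unfold od
    rw [natDegree_comp, h4, natDegree_X_add_C, mul_one]

variable (β : Measure Bool) [IsProbabilityMeasure β]

/-- the squared norm of a polynomial on level `l` -/
noncomputable def nrm (l : ℕ) (p : Polynomial ℂ) : ℝ :=
  ∫ w, ‖p.eval ((X l w : ℝ) : ℂ)‖ ^ 2 ∂(P β)

theorem continuous_eval (l : ℕ) (p : Polynomial ℂ) :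
    Continuous (fun w : Om => p.eval ((X l w : ℝ) : ℂ)) :=
  p.continuous.comp (Complex.continuous_ofReal.comp (continuous_X l))

theorem integrable_of_continuous {f : Om → ℝ} (hf : Continuous f) : Integrable f (P β) := by
  obtain ⟨C, hC⟩ := isCompact_univ.exists_bound_of_continuousOn (hf.continuousOn (s := Set.univ))
  apply Integrable.of_bound hf.measurable.aestronglyMeasurable C
  exact Eventually.of_forall (fun w => hC w (Set.mem_univ w))

theorem nrm_nonneg (l : ℕ) (p : Polynomial ℂ) : 0 ≤ nrm β l p :=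
  integral_nonneg (fun w => by positivity)

/-- the basic inequality -/
theorem nrm_ge (l : ℕ) (p : Polynomial ℂ) (h1 : 1 / 4 ≤ β.real {true})
    (h2 : 1 / 4 ≤ β.real {false}) :
    (1 / 2) * nrm β (l + 1) (ev p (b l)) ≤ nrm β l p ∧
    (1 / 2) * ((R l / 2) ^ 2 * nrm β (l + 1) (od p (b l))) ≤ nrm β l p := by
  have hc : Continuous (fun w : Om => ‖p.eval ((X l w : ℝ) : ℂ)‖ ^ 2) :=
    (continuous_eval l p).norm.pow 2
  have hint := integrable_of_continuous β hc
  have hcont : ∀ a : Bool, Continuous (fun w : Om => cons a w) := by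
    intro a
    apply continuous_pi
    intro n
    cases n with
    | zero => exact continuous_const
    | succ n => exact continuous_apply n
  have hc' : ∀ a : Bool, Continuous (fun w : Om => ‖p.eval ((X l (cons a w) : ℝ) : ℂ)‖ ^ 2) :=
    fun a => hc.comp (hcont a)
  have e : nrm β l p = β.real {true} * (∫ w, ‖p.eval ((X l (cons true w) : ℝ) : ℂ)‖ ^ 2 ∂(P β)) +
      β.real {false} * (∫ w, ‖p.eval ((X l (cons false w) : ℝ) : ℂ)‖ ^ 2 ∂(P β)) := by
    unfold nrm
    exact integral_P β _ hint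
  have hn : ∀ a : Bool, 0 ≤ ∫ w, ‖p.eval ((X l (cons a w) : ℝ) : ℂ)‖ ^ 2 ∂(P β) :=
    fun a => integral_nonneg (fun w => by positivity)
  have h3 : (1 / 4) * (∫ w, (‖p.eval ((X l (cons true w) : ℝ) : ℂ)‖ ^ 2 +
      ‖p.eval ((X l (cons false w) : ℝ) : ℂ)‖ ^ 2) ∂(P β)) ≤ nrm β l p := by
    rw [integral_add (integrable_of_continuous β (hc' true)) (integrable_of_continuous β (hc' false)), e]
    have := hn true
    have := hn false
    nlinarith
  -- pointwise identity
  have h4 : ∀ w : Om, ‖p.eval ((X l (cons true w) : ℝ) : ℂ)‖ ^ 2 +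
      ‖p.eval ((X l (cons false w) : ℝ) : ℂ)‖ ^ 2 =
      2 * ‖(ev p (b l)).eval ((X (l + 1) w : ℝ) : ℂ)‖ ^ 2 +
      2 * (X l (cons true w) ^ 2 * ‖(od p (b l)).eval ((X (l + 1) w : ℝ) : ℂ)‖ ^ 2) := by
    intro w
    set x : ℝ := X l (cons true w) with hx
    have hx2 : X l (cons false w) = -x := by
      rw [hx, X_cons, X_cons]; simp [sg]
    have hsq : x ^ 2 - b l = X (l + 1) w := by
      have := X_sq l (cons true w)
      rw [sh_cons] at this
      rw [hx]; linarith
    rw [hx2, eval_split p (b l) ((x : ℝ) : ℂ), eval_split p (b l) (((-x : ℝ)) : ℂ)]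
    have e1 : (((x : ℝ) : ℂ)) ^ 2 - ((b l : ℝ) : ℂ) = ((X (l + 1) w : ℝ) : ℂ) := by
      rw [← hsq]; push_cast; ring
    have e2 : ((((-x : ℝ)) : ℂ)) ^ 2 - ((b l : ℝ) : ℂ) = ((X (l + 1) w : ℝ) : ℂ) := by
      rw [← hsq]; push_cast; ring
    rw [e1, e2]
    set A := (ev p (b l)).eval ((X (l + 1) w : ℝ) : ℂ)
    set B := (od p (b l)).eval ((X (l + 1) w : ℝ) : ℂ)
    have e3 : (((-x : ℝ)) : ℂ) * B = -(((x : ℝ) : ℂ) * B) := by push_cast; ring
    rw [e3, ← sub_eq_add_neg]
    have hp := parallelogram_law_with_norm ℂ A (((x : ℝ) : ℂ) * B)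
    have h5 : ‖((x : ℝ) : ℂ) * B‖ ^ 2 = x ^ 2 * ‖B‖ ^ 2 := by
      rw [norm_mul, mul_pow, Complex.norm_real, Real.norm_eq_abs, sq_abs]
    rw [← h5]
    nlinarith [hp]
  have hcE : Continuous (fun w : Om => ‖(ev p (b l)).eval ((X (l + 1) w : ℝ) : ℂ)‖ ^ 2) :=
    (continuous_eval (l + 1) _).norm.pow 2
  have hcO : Continuous (fun w : Om => ‖(od p (b l)).eval ((X (l + 1) w : ℝ) : ℂ)‖ ^ 2) :=
    (continuous_eval (l + 1) _).norm.pow 2
  have hsum : Continuous (fun w : Om => ‖p.eval ((X l (cons true w) : ℝ) : ℂ)‖ ^ 2 +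
      ‖p.eval ((X l (cons false w) : ℝ) : ℂ)‖ ^ 2) := (hc' true).add (hc' false)
  constructor
  · have h5 : 2 * nrm β (l + 1) (ev p (b l)) ≤ ∫ w, (‖p.eval ((X l (cons true w) : ℝ) : ℂ)‖ ^ 2 +
        ‖p.eval ((X l (cons false w) : ℝ) : ℂ)‖ ^ 2) ∂(P β) := by
      unfold nrm
      rw [← integral_const_mul]
      apply integral_mono ((integrable_of_continuous β hcE).const_mul 2)
        (integrable_of_continuous β hsum)
      intro w
      simp only
      rw [h4 w]
      have : 0 ≤ X l (cons true w) ^ 2 * ‖(od p (b l)).eval ((X (l + 1) w : ℝ) : ℂ)‖ ^ 2 := by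
        positivity
      linarith
    linarith
  · have h5 : 2 * ((R l / 2) ^ 2 * nrm β (l + 1) (od p (b l))) ≤
        ∫ w, (‖p.eval ((X l (cons true w) : ℝ) : ℂ)‖ ^ 2 +
        ‖p.eval ((X l (cons false w) : ℝ) : ℂ)‖ ^ 2) ∂(P β) := by
      unfold nrm
      rw [← integral_const_mul, ← integral_const_mul]
      apply integral_mono (((integrable_of_continuous β hcO).const_mul _).const_mul 2)
        (integrable_of_continuous β hsum)
      intro w
      simp only
      rw [h4 w]
      have h6 : (R l / 2) ^ 2 ≤ X l (cons true w) ^ 2 := by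
        have := X_lower l (cons true w)
        rw [← sq_abs (X l (cons true w))]
        have hR := R_pos l
        gcongr
      have h7 : 0 ≤ ‖(ev p (b l)).eval ((X (l + 1) w : ℝ) : ℂ)‖ ^ 2 := by positivity
      have h8 : 0 ≤ ‖(od p (b l)).eval ((X (l + 1) w : ℝ) : ℂ)‖ ^ 2 := by positivity
      nlinarith [mul_le_mul_of_nonneg_right h6 h8]
    linarith

/-- lower bound for all monic polynomials -/
theorem nrm_lower (h1 : 1 / 4 ≤ β.real {true}) (h2 : 1 / 4 ≤ β.real {false}) :
    ∀ n : ℕ, ∀ (l : ℕ) (p : Polynomial ℂ), p.Monic → p.natDegree = n →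
      1 ≤ nrm β l p ∧ (1 ≤ n → (1 / 2) ^ (Nat.log 2 n + 1) * (R (l + Nat.log 2 n) / 2) ^ 2 ≤
        nrm β l p) := by
  -- first the sharp statement
  have main : ∀ n : ℕ, 1 ≤ n → ∀ (l : ℕ) (p : Polynomial ℂ), p.Monic → p.natDegree = n →
      (1 / 2) ^ (Nat.log 2 n + 1) * (R (l + Nat.log 2 n) / 2) ^ 2 ≤ nrm β l p := by
    intro n
    induction n using Nat.strong_induction_on with
    | _ n ih =>
      intro hn l p hp hd
      obtain ⟨hE, hO⟩ := nrm_ge β l p h1 h2
      rcases Nat.even_or_odd' n with ⟨m, hm | hm⟩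
      · have hm1 : 1 ≤ m := by omega
        obtain ⟨hmo, hde⟩ := ev_monic p (b l) m hp (by omega)
        have := ih m (by omega) hm1 (l + 1) _ hmo hde
        have hlog : Nat.log 2 n = Nat.log 2 m + 1 := by
          rw [hm, mul_comm]
          exact Nat.log_mul_base (by norm_num) (by omega)
        rw [hlog]
        rw [show l + (Nat.log 2 m + 1) = l + 1 + Nat.log 2 m by ring]
        calc (1 / 2 : ℝ) ^ (Nat.log 2 m + 1 + 1) * (R (l + 1 + Nat.log 2 m) / 2) ^ 2
            = (1 / 2) * ((1 / 2) ^ (Nat.log 2 m + 1) * (R (l + 1 + Nat.log 2 m) / 2) ^ 2) := by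
              rw [pow_succ]; ring
          _ ≤ (1 / 2) * nrm β (l + 1) (ev p (b l)) := by gcongr
          _ ≤ nrm β l p := hE
      · obtain ⟨hmo, hde⟩ := od_monic p (b l) m hp (by omega)
        rcases Nat.eq_zero_or_pos m with h0 | hm1
        · subst h0
          have hn1 : n = 1 := by omega
          subst hn1
          have hone : od p (b l) = 1 := by
            exact Polynomial.eq_one_of_monic_natDegree_zero hmo hde
          have hv : nrm β (l + 1) (od p (b l)) = 1 := by
            rw [hone]; unfold nrm; simp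
          rw [hv] at hO
          simpa using hO
        · have := ih m (by omega) hm1 (l + 1) _ hmo hde
          have hlog : Nat.log 2 n = Nat.log 2 m + 1 := by
            have h3 : Nat.log 2 n = Nat.log 2 (n / 2) + 1 :=
              Nat.log_of_one_lt_of_le (by norm_num) (by omega)
            rw [h3]
            congr 2
            omega
          rw [hlog]
          rw [show l + (Nat.log 2 m + 1) = l + 1 + Nat.log 2 m by ring]
          have hR : 1 ≤ (R l / 2) ^ 2 := by
            have := R_ge l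
            nlinarith
          have hn0 := nrm_nonneg β (l + 1) (od p (b l))
          calc (1 / 2 : ℝ) ^ (Nat.log 2 m + 1 + 1) * (R (l + 1 + Nat.log 2 m) / 2) ^ 2
              = (1 / 2) * ((1 / 2) ^ (Nat.log 2 m + 1) * (R (l + 1 + Nat.log 2 m) / 2) ^ 2) := by
                rw [pow_succ]; ring
            _ ≤ (1 / 2) * nrm β (l + 1) (od p (b l)) := by gcongr
            _ ≤ (1 / 2) * ((R l / 2) ^ 2 * nrm β (l + 1) (od p (b l))) := by
              gcongr
              nlinarith
            _ ≤ nrm β l p := hO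
  intro n l p hp hd
  refine ⟨?_, fun hn => main n hn l p hp hd⟩
  rcases Nat.eq_zero_or_pos n with h0 | hn
  · subst h0
    have : p = 1 := Polynomial.eq_one_of_monic_natDegree_zero hp hd
    rw [this]; unfold nrm; simp
  · refine le_trans ?_ (main n hn l p hp hd)
    set k := Nat.log 2 n
    have hR : R (l + k) / 2 = 2 ^ (l + 4) * 2 ^ k := by
      unfold R
      rw [show l + k + 5 = (l + 4) + k + 1 by ring, pow_succ, pow_add]; ring
    rw [hR]
    have h4 : (1:ℝ) ≤ 2 ^ k := one_le_pow₀ (by norm_num)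
    have h5 : (16:ℝ) ≤ 2 ^ (l + 4) := by
      have : (2:ℝ) ^ 4 ≤ 2 ^ (l + 4) := pow_le_pow_right₀ (by norm_num) (by omega)
      norm_num at this ⊢
      linarith
    have h6 : ((1:ℝ) / 2) ^ (k + 1) * (2 ^ (l + 4) * 2 ^ k) ^ 2 =
        (2 ^ (l + 4)) ^ 2 * 2 ^ k / 2 := by
      have h7 : ((1:ℝ) / 2) ^ k * 2 ^ k = 1 := by rw [← mul_pow]; norm_num
      rw [pow_succ, mul_pow]
      calc ((1:ℝ) / 2) ^ k * (1 / 2) * ((2 ^ (l + 4)) ^ 2 * (2 ^ k) ^ 2)
          = (((1:ℝ) / 2) ^ k * 2 ^ k) * ((2 ^ (l + 4)) ^ 2 * 2 ^ k / 2) := by ring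
        _ = _ := by rw [h7, one_mul]
    rw [h6]
    nlinarith

end Pool.Agent.H72.WF
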