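import Pool.Agent.H72.WF.Defs

set_option autoImplicit false
open MeasureTheory Filter Topology

namespace Pool.Agent.H72.WF

variable (β : Measure Bool) [IsProbabilityMeasure β]

theorem measurable_cons : Measurable (fun z : Bool × Om => cons z.1 z.2) := by
  apply measurable_pi_lambda
  intro n
  cases n with
  | zero => exact measurable_fst
  | succ n => exact (measurable_pi_apply n).comp measurable_snd

/-- the splitting of a digit sequence into first digit and shift, as a measurable equivalence -/
def consEquiv : Bool × Om ≃ᵐ Om where
  toFun z := cons z.1 z.2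
  invFun w := (w 0, sh w)
  left_inv z := by simp
  right_inv w := cons_sh w
  measurable_toFun := measurable_cons
  measurable_invFun := (measurable_pi_apply 0).prodMk measurable_sh

theorem map_cons : (β.prod (P β)).map consEquiv = P β := by
  apply Measure.eq_infinitePi
  intro s t ht
  classical
  rw [MeasurableEquiv.map_apply]
  -- the preimage is a product set
  set s' : Finset ℕ := (s.filter (fun i => 0 < i)).image (fun i => i - 1) with hs'
  have hpre : consEquiv ⁻¹' (Set.pi (s : Set ℕ) t) =
      (if 0 ∈ s then t 0 else Set.univ) ×ˢ (Set.pi (s' : Set ℕ) (fun i => t (i + 1))) := by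
    ext ⟨a, w⟩
    simp only [Set.mem_preimage, Set.mem_pi, Finset.mem_coe, Set.mem_prod]
    constructor
    · intro h
      constructor
      · split_ifs with h0
        · exact h 0 h0
        · trivial
      · intro i hi
        simp only [hs', Finset.mem_image, Finset.mem_filter] at hi
        obtain ⟨j, ⟨hj, hj0⟩, rfl⟩ := hi
        have := h j hj
        have e : j - 1 + 1 = j := by omega
        rw [e]
        have e2 : consEquiv (a, w) j = w (j - 1) := by
          obtain ⟨k, rfl⟩ : ∃ k, j = k + 1 := ⟨j - 1, by omega⟩
          rfl
        rwa [e2] at this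
    · rintro ⟨h0, h1⟩ i hi
      cases i with
      | zero =>
        rw [if_pos hi] at h0
        exact h0
      | succ i =>
        exact h1 i (by
          simp only [hs', Finset.mem_image, Finset.mem_filter]
          exact ⟨i + 1, ⟨hi, by omega⟩, by simp⟩)
  rw [hpre, Measure.prod_prod]
  have h1 : (P β) (Set.pi (s' : Set ℕ) (fun i => t (i + 1))) = ∏ i ∈ s', β (t (i + 1)) := by
    unfold P
    exact Measure.infinitePi_pi _ (fun i _ => ht (i + 1))
  rw [h1]
  have h2 : ∏ i ∈ s', β (t (i + 1)) = ∏ i ∈ s.filter (fun i => 0 < i), β (t i) := by
    rw [hs', Finset.prod_image]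
    · apply Finset.prod_congr rfl
      intro i hi
      have := (Finset.mem_filter.mp hi).2
      congr 2
      omega
    · intro i hi j hj hij
      simp only [Finset.coe_filter, Set.mem_ofPred_eq] at hi hj
      simp only at hij
      omega
  rw [h2]
  by_cases h0 : 0 ∈ s
  · rw [if_pos h0]
    have : s = insert 0 (s.filter (fun i => 0 < i)) := by
      ext i
      simp only [Finset.mem_insert, Finset.mem_filter]
      constructor
      · intro hi
        rcases Nat.eq_zero_or_pos i with h | h
        · left; exact h
        · right; exact ⟨hi, h⟩
      · rintro (rfl | h)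
        · exact h0
        · exact h.1
    conv_rhs => rw [this]
    rw [Finset.prod_insert (by simp)]
  · rw [if_neg h0, measure_univ, one_mul]
    apply Finset.prod_congr _ (fun _ _ => rfl)
    ext i
    simp only [Finset.mem_filter]
    constructor
    · exact fun h => h.1
    · intro h
      exact ⟨h, Nat.pos_of_ne_zero (fun h' => h0 (h' ▸ h))⟩

theorem measurePreserving_cons : MeasurePreserving consEquiv (β.prod (P β)) (P β) :=
  ⟨consEquiv.measurable, map_cons β⟩

/-- the integral over the first digit -/
theorem integral_bool (f : Bool → ℝ) :
    ∫ a, f a ∂β = β.real {true} * f true + β.real {false} * f false := by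
  rw [integral_fintype (Integrable.of_finite)]
  simp

theorem integral_P (f : Om → ℝ) (hf : Integrable f (P β)) :
    ∫ w, f w ∂(P β) = β.real {true} * ∫ w, f (cons true w) ∂(P β)
      + β.real {false} * ∫ w, f (cons false w) ∂(P β) := by
  have h := measurePreserving_cons β
  have h1 : ∫ w, f w ∂(P β) = ∫ z, f (consEquiv z) ∂(β.prod (P β)) := by
    rw [← h.integral_comp']
  have hi : Integrable (fun z => f (consEquiv z)) (β.prod (P β)) :=
    (h.integrable_comp_emb consEquiv.measurableEmbedding).mpr hf
  rw [h1, integral_prod _ hi, integral_bool]
  rfl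

/-- every nonempty open set of digit sequences has positive measure -/
theorem P_pos_of_open (h1 : β {true} ≠ 0) (h2 : β {false} ≠ 0) (U : Set Om) (hU : IsOpen U)
    (hne : U.Nonempty) : 0 < P β U := by
  obtain ⟨w, hw⟩ := hne
  rw [isOpen_pi_iff] at hU
  obtain ⟨s, t, ht, hsub⟩ := hU w hw
  have h3 : Set.pi (s : Set ℕ) (fun i => {w i}) ⊆ U := by
    apply Set.Subset.trans _ hsub
    apply Set.pi_mono
    intro i hi
    rw [Set.singleton_subset_iff]
    exact (ht i hi).2
  have h4 : P β (Set.pi (s : Set ℕ) (fun i => {w i})) = ∏ i ∈ s, β {w i} := by
    unfold P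
    exact Measure.infinitePi_pi _ (fun i _ => MeasurableSet.singleton _)
  refine lt_of_lt_of_le ?_ (measure_mono h3)
  rw [h4]
  apply pos_iff_ne_zero.mpr
  rw [Finset.prod_ne_zero_iff]
  intro i _
  cases w i
  · exact h2
  · exact h1

theorem noAtoms_P (h1 : β {true} ≠ 0) (h2 : β {false} ≠ 0) : NullSingletonClass (P β) := by
  constructor
  intro w
  -- each digit has probability at most some c < 1
  have hsum : β {true} + β {false} = 1 := by
    have : ({true} : Set Bool) ∪ {false} = Set.univ := by ext a; cases a <;> simp
    rw [← measure_union (by simp) (MeasurableSet.singleton _), this, measure_univ]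
  set c : ENNReal := max (β {true}) (β {false}) with hc
  have hc1 : c < 1 := by
    rw [hc, max_lt_iff]
    constructor
    · rw [← hsum]
      exact ENNReal.lt_add_right (measure_ne_top _ _) h2
    · rw [← hsum, add_comm]
      exact ENNReal.lt_add_right (measure_ne_top _ _) h1
  have hle : ∀ n : ℕ, P β {w} ≤ c ^ n := by
    intro n
    have h3 : ({w} : Set Om) ⊆ Set.pi ((Finset.range n : Finset ℕ) : Set ℕ) (fun i => {w i}) := by
      intro v hv
      rw [Set.mem_singleton_iff] at hv
      subst hv
      intro i _
      rfl
    have h4 : P β (Set.pi ((Finset.range n : Finset ℕ) : Set ℕ) (fun i => {w i})) =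
        ∏ i ∈ Finset.range n, β {w i} := by
      unfold P
      exact Measure.infinitePi_pi _ (fun i _ => MeasurableSet.singleton _)
    refine le_trans (measure_mono h3) ?_
    rw [h4]
    calc ∏ i ∈ Finset.range n, β {w i} ≤ ∏ i ∈ Finset.range n, c := by
          apply Finset.prod_le_prod'
          intro i _
          cases w i
          · exact le_max_right _ _
          · exact le_max_left _ _
      _ = c ^ n := by simp
  have := ENNReal.tendsto_pow_atTop_nhds_zero_of_lt_one hc1
  exact le_antisymm (ge_of_tendsto this (Eventually.of_forall hle)) bot_le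

/-- product measures with different marginals are mutually singular -/
theorem singular (γ : Measure Bool) [IsProbabilityMeasure γ] (h : β.real {true} ≠ γ.real {true}) :
    (P β).MutuallySingular (P γ) := by
  have key : ∀ (δ : Measure Bool) [IsProbabilityMeasure δ],
      ∀ᵐ w ∂(P δ), Tendsto (fun n : ℕ => (∑ i ∈ Finset.range n,
        (if w i = true then (1:ℝ) else 0)) / n) atTop (𝓝 (δ.real {true})) := by
    intro δ _
    have hm : ∀ i : ℕ, Measurable (fun w : Om => (if w i = true then (1:ℝ) else 0)) := by
      intro i
      exact (measurable_of_finite (fun a : Bool => (if a = true then (1:ℝ) else 0))).comp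
        (measurable_pi_apply i)
    have hint : Integrable (fun w : Om => (if w 0 = true then (1:ℝ) else 0)) (P δ) := by
      apply Integrable.of_bound (hm 0).aestronglyMeasurable 1
      filter_upwards with w
      split_ifs <;> simp
    have hindep : Pairwise (fun i j => ProbabilityTheory.IndepFun
        (fun w : Om => (if w i = true then (1:ℝ) else 0))
        (fun w : Om => (if w j = true then (1:ℝ) else 0)) (P δ)) := by
      intro i j hij
      have h1 := ProbabilityTheory.iIndepFun_infinitePi (P := fun _ : ℕ => δ)
        (X := fun _ : ℕ => (fun a : Bool => (if a = true then (1:ℝ) else 0)))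
        (fun i => measurable_of_finite _)
      exact h1.indepFun hij
    have hid : ∀ i, ProbabilityTheory.IdentDistrib
        (fun w : Om => (if w i = true then (1:ℝ) else 0))
        (fun w : Om => (if w 0 = true then (1:ℝ) else 0)) (P δ) (P δ) := by
      intro i
      refine ⟨(hm i).aemeasurable, (hm 0).aemeasurable, ?_⟩
      have e : ∀ k : ℕ, (P δ).map (fun w : Om => (if w k = true then (1:ℝ) else 0)) =
          δ.map (fun a : Bool => (if a = true then (1:ℝ) else 0)) := by
        intro k
        have := Measure.infinitePi_map_eval (fun _ : ℕ => δ) k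
        have h2 : (P δ).map (fun w : Om => w k) = δ := this
        conv_rhs => rw [← h2]
        have hmk : Measurable (fun w : Om => w k) := measurable_pi_apply k
        have hg : Measurable (fun a : Bool => (if a = true then (1:ℝ) else 0)) :=
          measurable_of_finite _
        exact (Measure.map_map hg hmk).symm
      rw [e i, e 0]
    have hs := ProbabilityTheory.strong_law_ae_real
      (fun i (w : Om) => (if w i = true then (1:ℝ) else 0)) hint hindep hid
    have hE : ∫ w, (if w 0 = true then (1:ℝ) else 0) ∂(P δ) = δ.real {true} := by
      have h2 : (P δ).map (fun w : Om => w 0) = δ := Measure.infinitePi_map_eval (fun _ : ℕ => δ) 0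
      have h3 : ∫ w, (if w 0 = true then (1:ℝ) else 0) ∂(P δ) =
          ∫ a, (if a = true then (1:ℝ) else 0) ∂((P δ).map (fun w : Om => w 0)) := by
        rw [integral_map (measurable_pi_apply 0).aemeasurable]
        exact (measurable_of_finite _).aestronglyMeasurable
      rw [h3, h2, integral_bool]
      simp
    rw [← hE]
    exact hs
  set A : Set Om := {w | Tendsto (fun n : ℕ => (∑ i ∈ Finset.range n,
        (if w i = true then (1:ℝ) else 0)) / n) atTop (𝓝 (β.real {true}))} with hA
  set C : Set Om := {w | Tendsto (fun n : ℕ => (∑ i ∈ Finset.range n,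
        (if w i = true then (1:ℝ) else 0)) / n) atTop (𝓝 (γ.real {true}))} with hC
  apply Measure.MutuallySingular.mk (s := Aᶜ) (t := Cᶜ) (key β) (key γ)
  intro w _
  by_contra hcon
  rw [Set.mem_union, not_or, Set.notMem_compl_iff, Set.notMem_compl_iff] at hcon
  exact h (tendsto_nhds_unique hcon.1 hcon.2)

end Pool.Agent.H72.WF
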