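import Pool.Agent.H72.WF.Energy

set_option autoImplicit false
open MeasureTheory Filter Topology

namespace Pool.Agent.H72.WF

/-- monic polynomials of every degree which are small on the set of level `l` -/
theorem poly_exists : ∀ (s l j : ℕ), j < 2 ^ s → ∃ q : Polynomial ℂ, q.Monic ∧ q.natDegree = j ∧
    ∀ w : Om, ‖q.eval ((X l w : ℝ) : ℂ)‖ ≤ R (l + s) ^ s := by
  intro s
  induction s with
  | zero =>
    intro l j hj
    have : j = 0 := by simpa using hj
    subst this
    exact ⟨1, Polynomial.monic_one, by simp, fun w => by simp⟩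
  | succ s ih =>
    intro l j hj
    have hm : j / 2 < 2 ^ s := by
      rw [pow_succ] at hj; omega
    obtain ⟨q, hq1, hq2, hq3⟩ := ih (l + 1) (j / 2) hm
    set g : Polynomial ℂ := Polynomial.X ^ 2 - Polynomial.C ((b l : ℝ) : ℂ) with hg
    have hgm : g.Monic := by
      rw [hg]; exact Polynomial.monic_X_pow_sub_C _ (by norm_num)
    have hgd : g.natDegree = 2 := by rw [hg]; exact Polynomial.natDegree_X_pow_sub_C
    have hcm : (q.comp g).Monic := hq1.comp hgm (by rw [hgd]; norm_num)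
    have hcd : (q.comp g).natDegree = 2 * (j / 2) := by
      rw [Polynomial.natDegree_comp, hq2, hgd, mul_comm]
    have hev : ∀ w : Om, (q.comp g).eval ((X l w : ℝ) : ℂ) = q.eval ((X (l + 1) (sh w) : ℝ) : ℂ) := by
      intro w
      rw [Polynomial.eval_comp]
      congr 1
      rw [hg]
      simp only [Polynomial.eval_sub, Polynomial.eval_pow, Polynomial.eval_X, Polynomial.eval_C]
      have := X_sq l w
      rw [show X (l + 1) (sh w) = X l w ^ 2 - b l by linarith]
      push_cast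
      ring
    have hR1 : 1 ≤ R (l + (s + 1)) := le_trans (by norm_num) (R_ge _)
    have hbound : ∀ w : Om, ‖(q.comp g).eval ((X l w : ℝ) : ℂ)‖ ≤ R (l + (s + 1)) ^ s := by
      intro w
      rw [hev, show l + (s + 1) = l + 1 + s by ring]
      exact hq3 (sh w)
    have hmono : R l ≤ R (l + (s + 1)) := by
      unfold R
      exact pow_le_pow_right₀ (by norm_num) (by omega)
    rcases Nat.even_or_odd j with he | ho
    · refine ⟨q.comp g, hcm, ?_, ?_⟩
      · rw [hcd]; exact Nat.two_mul_div_two_of_even he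
      · intro w
        refine le_trans (hbound w) ?_
        exact pow_le_pow_right₀ hR1 (by omega)
    · refine ⟨Polynomial.X * q.comp g, Polynomial.monic_X.mul hcm, ?_, ?_⟩
      · rw [Polynomial.natDegree_X_mul hcm.ne_zero, hcd]
        exact Nat.two_mul_div_two_add_one_of_odd ho
      · intro w
        rw [Polynomial.eval_mul, Polynomial.eval_X, norm_mul, Complex.norm_real, Real.norm_eq_abs,
          pow_succ, mul_comm]
        apply mul_le_mul (hbound w) (le_trans (abs_X_le l w) hmono) (abs_nonneg _)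
        exact pow_nonneg (R_pos _).le _

/-- the compact set -/
def K : Set ℂ := Set.range (fun w : Om => ((X 0 w : ℝ) : ℂ))

theorem vandermonde_bound (s : ℕ) (v : Fin (2 ^ s) → ℂ) (hK : ∀ i, v i ∈ K) :
    ‖(Matrix.vandermonde v).det‖ ≤ (2 ^ s).factorial * (R s ^ s) ^ (2 ^ s) := by
  choose q hq1 hq2 hq3 using fun i : Fin (2 ^ s) => poly_exists s 0 i i.2
  rw [Matrix.det_eval_matrixOfPolynomials_eq_det_vandermonde v q hq2 hq1]
  have h := Matrix.det_le (A := Matrix.of (fun i j => ((q j).eval (v i))))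
    (abv := NormedField.toAbsoluteValue ℂ) (x := R s ^ s) ?_
  · have h' : ‖(Matrix.of (fun i j => ((q j).eval (v i)))).det‖ ≤
        (Fintype.card (Fin (2 ^ s))).factorial • (R s ^ s) ^ Fintype.card (Fin (2 ^ s)) := h
    rw [Fintype.card_fin, nsmul_eq_mul] at h'
    exact h'
  · intro i j
    obtain ⟨w, hw⟩ := hK i
    have := hq3 j w
    simp only [zero_add] at this
    have h2 : ‖(q j).eval (v i)‖ ≤ R s ^ s := by rw [← hw]; exact this
    exact h2

theorem log_sum_bound (s : ℕ) (v : Fin (2 ^ s) → ℂ) (hK : ∀ i, v i ∈ K)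
    (hinj : Function.Injective v) :
    ∑ i : Fin (2 ^ s), ∑ j ∈ Finset.Ioi i, Real.log ‖v j - v i‖ ≤
      2 ^ s * (s * (s + 6)) := by
  have h1 := vandermonde_bound s v hK
  rw [Matrix.det_vandermonde] at h1
  have hne : ∀ i : Fin (2 ^ s), ∀ j ∈ Finset.Ioi i, ‖v j - v i‖ ≠ 0 := by
    intro i j hj
    rw [norm_ne_zero_iff, sub_ne_zero]
    intro h
    have := hinj h
    rw [Finset.mem_Ioi] at hj
    exact absurd this hj.ne'
  have h2 : ∑ i : Fin (2 ^ s), ∑ j ∈ Finset.Ioi i, Real.log ‖v j - v i‖ =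
      Real.log ‖∏ i : Fin (2 ^ s), ∏ j ∈ Finset.Ioi i, (v j - v i)‖ := by
    rw [norm_prod]
    simp_rw [norm_prod]
    rw [Real.log_prod]
    · apply Finset.sum_congr rfl
      intro i _
      rw [Real.log_prod]
      exact hne i
    · intro i _
      exact Finset.prod_ne_zero_iff.mpr (hne i)
  rw [h2]
  have hpos : 0 < ‖∏ i : Fin (2 ^ s), ∏ j ∈ Finset.Ioi i, (v j - v i)‖ := by
    rw [norm_pos_iff]
    apply Finset.prod_ne_zero_iff.mpr
    intro i _
    apply Finset.prod_ne_zero_iff.mpr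
    intro j hj
    exact norm_ne_zero_iff.mp (hne i j hj)
  refine le_trans (Real.log_le_log hpos h1) ?_
  have hR := R_pos s
  rw [Real.log_mul (by positivity) (by positivity), Real.log_pow, Real.log_pow]
  have hf : Real.log ((2 ^ s).factorial : ℝ) ≤ 2 ^ s * s := by
    have h3 : (((2 ^ s).factorial : ℕ) : ℝ) ≤ ((2:ℝ) ^ s) ^ (2 ^ s) := by
      have := Nat.factorial_le_pow (2 ^ s)
      exact_mod_cast this
    have h4 : Real.log ((2 ^ s).factorial : ℝ) ≤ Real.log (((2:ℝ) ^ s) ^ (2 ^ s)) :=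
      Real.log_le_log (by positivity) h3
    refine le_trans h4 ?_
    rw [Real.log_pow, Real.log_pow]
    have h2 : Real.log 2 ≤ 1 := by
      have := Real.log_two_lt_d9
      linarith
    push_cast
    apply mul_le_mul_of_nonneg_left _ (by positivity)
    have : (0:ℝ) ≤ (s:ℝ) := by positivity
    nlinarith
  have hl : Real.log (R s) ≤ s + 5 := by
    unfold R
    rw [Real.log_pow]
    have h2 : Real.log 2 ≤ 1 := by
      have := Real.log_two_lt_d9
      linarith
    push_cast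
    have : (0:ℝ) ≤ (s:ℝ) + 5 := by positivity
    nlinarith
  have h5 : (((2 ^ s : ℕ) : ℝ)) * ((s : ℝ) * Real.log (R s)) ≤ 2 ^ s * (s * (s + 5)) := by
    push_cast
    gcongr
  calc _ ≤ (2:ℝ) ^ s * s + 2 ^ s * (s * (s + 5)) := add_le_add hf h5
    _ = 2 ^ s * (s * (s + 6)) := by ring

theorem optimal (ρ : Measure ℂ) [IsProbabilityMeasure ρ] (hK : ρ Kᶜ = 0)
    (hna : NullSingletonClass ρ)
    (hint : Integrable (fun p : ℂ × ℂ => Real.log ‖p.1 - p.2‖) (ρ.prod ρ)) :
    ∫ p, Real.log ‖p.1 - p.2‖ ∂(ρ.prod ρ) ≤ 0 := by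
  set I : ℝ := ∫ p, Real.log ‖p.1 - p.2‖ ∂(ρ.prod ρ) with hI
  set Q : Measure (ℕ → ℂ) := Measure.infinitePi (fun _ : ℕ => ρ) with hQ
  have hmp : ∀ i j : ℕ, i ≠ j → Q.map (fun ω => (ω i, ω j)) = ρ.prod ρ := by
    intro i j hij
    exact Measure.infinitePi_map_eval_prod hij
  have hmeas : ∀ i j : ℕ, Measurable (fun ω : ℕ → ℂ => (ω i, ω j)) := by
    intro i j; fun_prop
  have hin : ∀ i j : ℕ, i ≠ j → Integrable (fun ω : ℕ → ℂ => Real.log ‖ω i - ω j‖) Q := by
    intro i j hij
    have h := hint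
    rw [← hmp i j hij] at h
    exact h.comp_measurable (hmeas i j)
  have hiv : ∀ i j : ℕ, i ≠ j → ∫ ω, Real.log ‖ω i - ω j‖ ∂Q = I := by
    intro i j hij
    rw [hI, ← hmp i j hij, integral_map (hmeas i j).aemeasurable]
    rw [hmp i j hij]
    exact hint.aestronglyMeasurable
  -- almost sure facts
  have hKae : ∀ᵐ ω ∂Q, ∀ i : ℕ, ω i ∈ K := by
    rw [ae_all_iff]
    intro i
    have h1 : Q.map (fun ω => ω i) = ρ := Measure.infinitePi_map_eval _ i
    have h2 : ∀ᵐ z ∂ρ, z ∈ K := by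
      rw [ae_iff]; exact hK
    rw [← h1] at h2
    exact ae_of_ae_map (measurable_pi_apply i).aemeasurable h2
  have hne : ∀ᵐ ω ∂Q, ∀ i j : ℕ, i ≠ j → ω i ≠ ω j := by
    rw [ae_all_iff]
    intro i
    rw [ae_all_iff]
    intro j
    by_cases hij : i = j
    · filter_upwards with ω h
      exact absurd hij h
    · have hd : ∀ᵐ p ∂(ρ.prod ρ), p.1 ≠ p.2 := by
        rw [ae_iff]
        have hm : MeasurableSet {z : ℂ × ℂ | ¬ z.1 ≠ z.2} := by
          have : {z : ℂ × ℂ | ¬ z.1 ≠ z.2} = {z : ℂ × ℂ | z.1 = z.2} := by ext z; simp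
          rw [this]
          exact measurableSet_eq_fun measurable_fst measurable_snd
        rw [Measure.measure_prod_null hm]
        refine Eventually.of_forall (fun w => ?_)
        have : (Prod.mk w ⁻¹' {z : ℂ × ℂ | ¬ z.1 ≠ z.2}) = {w} := by
          ext v; simp [eq_comm]
        simp only [this, Pi.zero_apply]
        exact measure_singleton w
      rw [← hmp i j hij] at hd
      have := ae_of_ae_map (hmeas i j).aemeasurable hd
      filter_upwards [this] with ω h _
      exact h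
  -- the main inequality for every s
  have main : ∀ s : ℕ, ((2 ^ s : ℕ) : ℝ) * (((2 ^ s : ℕ) : ℝ) - 1) / 2 * I ≤
      2 ^ s * (s * (s + 6)) := by
    intro s
    set n : ℕ := 2 ^ s with hn
    have h1 : ∀ᵐ ω ∂Q, ∑ i : Fin n, ∑ j ∈ Finset.Ioi i, Real.log ‖ω j - ω i‖ ≤
        2 ^ s * (s * (s + 6)) := by
      filter_upwards [hKae, hne] with ω hω1 hω2
      exact log_sum_bound s (fun i : Fin (2 ^ s) => ω i) (fun i => hω1 i) (by
        intro i j hij
        by_contra hcon
        exact hω2 i j (fun h => hcon (Fin.ext h)) hij)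
    have h2 : ∀ i : Fin n, ∀ j ∈ Finset.Ioi i,
        Integrable (fun ω : ℕ → ℂ => Real.log ‖ω j - ω i‖) Q := by
      intro i j hj
      apply hin
      rw [Finset.mem_Ioi] at hj
      exact fun h => absurd (Fin.ext h) hj.ne'
    have h3 : ∫ ω, (∑ i : Fin n, ∑ j ∈ Finset.Ioi i, Real.log ‖ω j - ω i‖) ∂Q =
        ∑ i : Fin n, ∑ j ∈ Finset.Ioi i, I := by
      rw [integral_finsetSum _ (fun i _ => integrable_finsetSum _ (h2 i))]
      apply Finset.sum_congr rfl
      intro i _
      rw [integral_finsetSum _ (h2 i)]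
      apply Finset.sum_congr rfl
      intro j hj
      apply hiv
      rw [Finset.mem_Ioi] at hj
      exact fun h => absurd (Fin.ext h) hj.ne'
    have h4 : ∑ i : Fin n, ∑ j ∈ Finset.Ioi i, I = ((n : ℝ) * ((n : ℝ) - 1) / 2) * I := by
      simp only [Finset.sum_const, Fin.card_Ioi, nsmul_eq_mul]
      rw [← Finset.sum_mul]
      congr 1
      rw [Fin.sum_univ_eq_sum_range (fun i => ((n - 1 - i : ℕ) : ℝ)) n]
      rw [Finset.sum_range_reflect (fun i => (i : ℝ)) n]
      have := Finset.sum_range_id_mul_two n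
      have h5 : ((∑ i ∈ Finset.range n, i : ℕ) : ℝ) * 2 = (n : ℝ) * ((n - 1 : ℕ) : ℝ) := by
        exact_mod_cast this
      have hn1 : 1 ≤ n := Nat.one_le_two_pow
      rw [Nat.cast_sub hn1] at h5
      push_cast at h5
      linarith
    have h5 : ∫ ω, (∑ i : Fin n, ∑ j ∈ Finset.Ioi i, Real.log ‖ω j - ω i‖) ∂Q ≤
        ∫ _ω, ((2:ℝ) ^ s * (s * (s + 6))) ∂Q := by
      apply integral_mono_ae _ (integrable_const _) h1
      exact integrable_finsetSum _ (fun i _ => integrable_finsetSum _ (h2 i))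
    rw [h3, h4] at h5
    simpa using h5
  by_contra hcon
  push Not at hcon
  -- take s large
  have h0 : Tendsto (fun s : ℕ => 2 * ((s:ℝ) * (s + 6)) * (1 / 2) ^ s) atTop (𝓝 0) := by
    have a1 := tendsto_pow_const_mul_const_pow_of_lt_one 2 (r := (1/2 : ℝ)) (by norm_num) (by norm_num)
    have a2 := tendsto_self_mul_const_pow_of_lt_one (r := (1/2 : ℝ)) (by norm_num) (by norm_num)
    have a3 := (a1.const_mul 2).add (a2.const_mul 12)
    simp only [mul_zero, add_zero] at a3
    refine a3.congr (fun s => ?_)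
    ring
  have h1 := h0.eventually (gt_mem_nhds (show (0:ℝ) < I / 2 by linarith))
  obtain ⟨s, hs, hs1⟩ := (h1.and (eventually_ge_atTop 1)).exists
  have h2 := main s
  have h3 : (2:ℝ) ≤ 2 ^ s := by
    calc (2:ℝ) = 2 ^ 1 := by norm_num
      _ ≤ 2 ^ s := pow_le_pow_right₀ (by norm_num) hs1
  push_cast at h2
  have h4 : (0:ℝ) < 2 ^ s := by positivity
  have h5 : ((2:ℝ) ^ s - 1) / 2 * I ≤ s * (s + 6) := by
    have : (2:ℝ) ^ s * (((2:ℝ) ^ s - 1) / 2 * I) ≤ 2 ^ s * (s * (s + 6)) := by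
      calc (2:ℝ) ^ s * (((2:ℝ) ^ s - 1) / 2 * I) = 2 ^ s * (2 ^ s - 1) / 2 * I := by ring
        _ ≤ _ := h2
    exact le_of_mul_le_mul_left this h4
  have h6 : (2:ℝ) ^ s / 4 * I ≤ s * (s + 6) := by
    refine le_trans ?_ h5
    apply mul_le_mul_of_nonneg_right _ hcon.le
    linarith
  have h7 : 2 * ((s:ℝ) * (s + 6)) * (1 / 2) ^ s < I / 2 := hs
  have h8 : ((1:ℝ) / 2) ^ s * 2 ^ s = 1 := by rw [← mul_pow]; norm_num
  have h9 : 2 * ((s:ℝ) * (s + 6)) < I / 2 * 2 ^ s := by
    calc 2 * ((s:ℝ) * (s + 6)) = (2 * ((s:ℝ) * (s + 6)) * (1 / 2) ^ s) * 2 ^ s := by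
          rw [mul_assoc, h8, mul_one]
      _ < I / 2 * 2 ^ s := by
          exact mul_lt_mul_of_pos_right h7 h4
  nlinarith

end Pool.Agent.H72.WF
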